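import Mathlib
import Pool.Agent.H.MP_c42e77_an.Basic

set_option autoImplicit false

namespace Pool.Agent.Results.MP_c42e77_an.LocalCantor

open Set Filter Topology

/-- The subsum of the series `x` given by the choice sequence `ε`. -/
noncomputable def subsum (x : ℕ → ℝ) (ε : ℕ → Bool) : ℝ := ∑' n, if ε n then x n else 0

/-- The cardinality function of `x`: the number of representations of `t` as a subsum. -/
noncomputable def cardinalityFunction (x : ℕ → ℝ) (t : ℝ) : Cardinal :=
  Cardinal.mk {ε : ℕ → Bool // subsum x ε = t}

/-- The set of all points with continuum many representations. -/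
def levelContinuum (x : ℕ → ℝ) : Set ℝ := {t | cardinalityFunction x t = Cardinal.continuum}

/-- A Cantor set: a subset of the line homeomorphic to the middle-thirds Cantor set. -/
def IsCantor (C : Set ℝ) : Prop := Nonempty (C ≃ₜ cantorSet)

theorem continuous_subsum (x : ℕ → ℝ) (hpos : ∀ n, 0 < x n) (hx : Summable x) :
    Continuous (subsum x) := by
  unfold subsum
  refine continuous_tsum (u := x) ?_ hx ?_
  · intro n
    have : (fun ε : ℕ → Bool => if ε n then x n else 0) =
        (fun b : Bool => if b then x n else 0) ∘ (fun ε : ℕ → Bool => ε n) := by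
      ext ε; simp
    rw [this]
    exact (continuous_of_discreteTopology).comp (continuous_apply n)
  · intro n ε
    by_cases h : ε n
    · simp [h, abs_of_pos (hpos n)]
    · simp [h, (hpos n).le]

theorem summable_subsum (x : ℕ → ℝ) (hpos : ∀ n, 0 < x n) (hx : Summable x) (ε : ℕ → Bool) :
    Summable (fun n => if ε n then x n else 0) := by
  refine Summable.of_nonneg_of_le ?_ ?_ hx
  · intro n
    by_cases h : ε n
    · simp [h, (hpos n).le]
    · simp [h]
  · intro n
    by_cases h : ε n
    · simp [h]
    · simp [h, (hpos n).le]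

/-- Near each of its points the set of points with continuum many representations contains a Cantor set. -/
theorem result (x : ℕ → ℝ) (hpos : ∀ n, 0 < x n) (hx : Summable x) (t : ℝ) (ht : t ∈ levelContinuum x)
    (δ : ℝ) (hδ : 0 < δ) :
    ∃ C : Set ℝ, IsCantor C ∧ C ⊆ levelContinuum x ∩ Set.Ioo (t - δ) (t + δ) := by
  classical
  have hfc : Continuous (subsum x) := continuous_subsum x hpos hx
  have hCclosed : IsClosed {ε : ℕ → Bool | subsum x ε = t} := isClosed_eq hfc continuous_const
  have hCunc : ¬ ({ε : ℕ → Bool | subsum x ε = t}).Countable := by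
    intro h
    have h1 : Cardinal.mk (↥{ε : ℕ → Bool | subsum x ε = t}) ≤ Cardinal.aleph0 :=
      Cardinal.le_aleph0_iff_set_countable.2 h
    have h2 : Cardinal.mk (↥{ε : ℕ → Bool | subsum x ε = t}) = Cardinal.continuum := ht
    rw [h2] at h1
    exact absurd Cardinal.aleph0_lt_continuum (not_lt.2 h1)
  obtain ⟨D, n₀, v, hD, hDne, hDC, hn₀, hDv₀⟩ :=
    Pool.Agent.H.MP_c42e77_an.exists_perfect_const _ hCclosed hCunc
  obtain ⟨z0, hz0⟩ := hDne
  have hz0t : subsum x z0 = t := hDC hz0
  -- only late coordinates are going to be changed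
  obtain ⟨M, hM⟩ := Pool.Agent.H.MP_c42e77_an.exists_cyl_subset z0 (subsum x ⁻¹' Set.Ioo (t - δ) (t + δ))
    (hfc.continuousAt.preimage_mem_nhds (Ioo_mem_nhds (by rw [hz0t]; linarith) (by rw [hz0t]; linarith)))
  let n : ℕ → ℕ := fun k => n₀ (k + (M + 1))
  have hn : StrictMono n := fun a b hab => hn₀ (by omega)
  have hDv : ∀ z ∈ D, ∀ k, z (n k) = v := fun z hz k => hDv₀ z hz _
  have hnM : ∀ i ≤ M, i ∉ Set.range n := by
    rintro i hi ⟨k, rfl⟩
    have := hn₀.le_apply (x := k + (M + 1))
    simp only [n] at hi
    omega
  -- combination map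
  let comb : (ℕ → Bool) → (ℕ → Bool) → (ℕ → Bool) :=
    fun w z i => if i ∈ Set.range n then w i else z i
  have hcomb : ∀ w, ∀ z ∈ D, subsum x (comb w z) = subsum x (comb w z0) := by
    intro w z hz
    have e1 : subsum x z = subsum x z0 := by
      have a := hDC hz
      have b := hDC hz0
      simp only [Set.mem_ofPred_eq] at a b
      rw [a, b]
    have s1 := summable_subsum x hpos hx (comb w z)
    have s2 := summable_subsum x hpos hx (comb w z0)
    have s3 := summable_subsum x hpos hx z
    have s4 := summable_subsum x hpos hx z0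
    have e2 : subsum x (comb w z) - subsum x (comb w z0) = subsum x z - subsum x z0 := by
      simp only [subsum]
      rw [← s1.tsum_sub s2, ← s3.tsum_sub s4]
      refine tsum_congr (fun i => ?_)
      by_cases hi : i ∈ Set.range n
      · obtain ⟨k, rfl⟩ := hi
        have hc1 : comb w z (n k) = w (n k) := by simp [comb]
        have hc2 : comb w z0 (n k) = w (n k) := by simp [comb]
        rw [hc1, hc2, hDv z hz k, hDv z0 hz0 k]
        simp
      · have hc1 : comb w z i = z i := by
          simp only [comb]; rw [if_neg hi]
        have hc2 : comb w z0 i = z0 i := by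
          simp only [comb]; rw [if_neg hi]
        rw [hc1, hc2]
    linarith
  have hinj : ∀ w, Set.InjOn (comb w) D := by
    intro w z hz z' hz' h
    funext i
    by_cases hi : i ∈ Set.range n
    · obtain ⟨k, rfl⟩ := hi
      rw [hDv z hz k, hDv z' hz' k]
    · have := congrFun h i
      simp only [comb] at this
      rwa [if_neg hi, if_neg hi] at this
  have hcard : ∀ w, Cardinal.mk (↥{ε : ℕ → Bool | subsum x ε = subsum x (comb w z0)}) =
      Cardinal.continuum := by
    intro w
    refine le_antisymm ?_ ?_
    · calc Cardinal.mk (↥{ε : ℕ → Bool | subsum x ε = subsum x (comb w z0)}) ≤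
            Cardinal.mk (ℕ → Bool) := Cardinal.mk_set_le _
        _ = Cardinal.continuum := by simp
    · exact Pool.Agent.H.MP_c42e77_an.mk_of_perfect_image D hD ⟨z0, hz0⟩ _ (comb w) (hinj w)
        (fun z hz => hcomb w z hz)
  -- the set of new values is perfect
  let T : Set ℝ := Set.range (fun w => subsum x (comb w z0))
  have hcombc : Continuous (fun w => comb w z0) := by
    refine continuous_pi (fun i => ?_)
    by_cases hi : i ∈ Set.range n
    · have : (fun w => comb w z0 i) = (fun w : ℕ → Bool => w i) := by
        funext w; simp only [comb]; rw [if_pos hi]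
      rw [this]; exact continuous_apply i
    · have : (fun w => comb w z0 i) = (fun _ : ℕ → Bool => z0 i) := by
        funext w; simp only [comb]; rw [if_neg hi]
      rw [this]; exact continuous_const
  have hTclosed : IsClosed T := (isCompact_range (hfc.comp hcombc)).isClosed
  have hTpre : Preperfect T := by
    rw [preperfect_iff_nhds]
    rintro _ ⟨w, rfl⟩ U hU
    obtain ⟨η, hη, hball⟩ := Metric.mem_nhds_iff.1 hU
    have htend : Tendsto (fun k => x (n k)) atTop (𝓝 0) :=
      hx.tendsto_atTop_zero.comp hn.tendsto_atTop
    obtain ⟨k, hk⟩ := ((tendsto_order.1 htend).2 η hη).exists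
    let w' : ℕ → Bool := Function.update w (n k) (!(w (n k)))
    have hdiff : subsum x (comb w' z0) - subsum x (comb w z0) =
        if w (n k) then - x (n k) else x (n k) := by
      have s1 := summable_subsum x hpos hx (comb w' z0)
      have s2 := summable_subsum x hpos hx (comb w z0)
      simp only [subsum]
      rw [← s1.tsum_sub s2]
      rw [tsum_eq_single (n k)]
      · have hc1 : comb w' z0 (n k) = !(w (n k)) := by simp [comb, w']
        have hc2 : comb w z0 (n k) = w (n k) := by simp [comb]
        rw [hc1, hc2]
        cases w (n k) <;> simp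
      · intro j hj
        have hc : comb w' z0 j = comb w z0 j := by
          simp only [comb, w']
          rw [Function.update_of_ne hj]
        rw [hc]; simp
    have habs : |subsum x (comb w' z0) - subsum x (comb w z0)| = x (n k) := by
      rw [hdiff]
      cases w (n k) <;> simp [abs_of_pos (hpos (n k))]
    refine ⟨subsum x (comb w' z0), ⟨hball ?_, ⟨w', rfl⟩⟩, ?_⟩
    · rw [Metric.mem_ball, Real.dist_eq]
      show |subsum x (comb w' z0) - subsum x (comb w z0)| < η
      rw [habs]; exact hk
    · intro h
      have : |subsum x (comb w' z0) - subsum x (comb w z0)| = 0 := by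
        have h' : subsum x (comb w' z0) = subsum x (comb w z0) := h
        rw [h', sub_self, abs_zero]
      rw [habs] at this
      exact absurd this (hpos (n k)).ne'
  have hTperf : Perfect T := ⟨hTclosed, hTpre⟩
  obtain ⟨g, hg1, hg2, hg3⟩ := hTperf.exists_nat_bool_injection ⟨_, ⟨z0, rfl⟩⟩
  refine ⟨Set.range g, ⟨?_⟩, ?_⟩
  · exact ((hg2.isClosedEmbedding hg3).isEmbedding.toHomeomorph).symm.trans
      cantorSetHomeomorphNatToBool.symm
  · refine hg1.trans ?_
    rintro _ ⟨w, rfl⟩
    refine ⟨hcard w, ?_⟩
    have h5 : comb w z0 ∈ subsum x ⁻¹' Set.Ioo (t - δ) (t + δ) := by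
      apply hM
      intro i hi
      show comb w z0 i = z0 i
      simp only [comb]
      rw [if_neg (hnM i hi)]
    exact h5

end Pool.Agent.Results.MP_c42e77_an.LocalCantor
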